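import Pool.Agent.Lib.helper16.CovC0
import Pool.Agent.Lib.helper16.CovC1

namespace Pool.Agent.Results.MP_23c930_nt.Block

/-- `x` is `n`-covered: divisible by two distinct primes less than `n`, or by the square of a
prime less than `n / 2`. -/
def Covered (n x : ℕ) : Prop :=
  (∃ p q : ℕ, p.Prime ∧ q.Prime ∧ p ≠ q ∧ p < n ∧ q < n ∧ p * q ∣ x) ∨
    (∃ p : ℕ, p.Prime ∧ 2 * p < n ∧ p ^ 2 ∣ x)

open Pool.Agent.Lib.helper16.Covering in
theorem result : ∃ n m : ℕ, 1 ≤ n ∧ ∀ i : ℕ, 1 ≤ i → i ≤ n → Covered n (m + i) := by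
  refine ⟨100000, bigM, by norm_num, ?_⟩
  intro i h1 h2
  change Cov 100000 (bigM + i)
  by_cases h0 : i < 10001
  · exact chunks_cov _ _ _ t0 i (by omega) h0
  by_cases h1 : i < 20001
  · exact chunks_cov _ _ _ t1 i (by omega) h1
  by_cases h2 : i < 30001
  · exact chunks_cov _ _ _ t2 i (by omega) h2
  by_cases h3 : i < 40001
  · exact chunks_cov _ _ _ t3 i (by omega) h3
  by_cases h4 : i < 50001
  · exact chunks_cov _ _ _ t4 i (by omega) h4
  by_cases h5 : i < 60001
  · exact chunks_cov _ _ _ t5 i (by omega) h5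
  by_cases h6 : i < 70001
  · exact chunks_cov _ _ _ t6 i (by omega) h6
  by_cases h7 : i < 80001
  · exact chunks_cov _ _ _ t7 i (by omega) h7
  by_cases h8 : i < 90001
  · exact chunks_cov _ _ _ t8 i (by omega) h8
  exact chunks_cov _ _ _ t9 i (by omega) (by omega)

end Pool.Agent.Results.MP_23c930_nt.Block
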